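import Pool.Agent.helper3.NTH.Hub

/-!
# MP_c8d30a: (A_h): a hub state has a cheap reversible path to a double standard state
-/

set_option autoImplicit false

namespace NTH

universe u
variable {Ω : Type u} {p : Ω → Ω}

/-- a hub state; the static parts have at most `k` tokens. -/
def Hub (p : Ω → Ω) (k : ℕ) (s : St Ω) : Prop := ∃ (f e : Ω) (X U2 Y V2 : List Ω), s = Fm p f e X U2 Y V2 ∧
  U2.length + V2.length ≤ k ∧ (∃ b ∈ X, p b ∈ X) ∧ (∃ q ∈ Y, p q ∈ e :: (Y ++ p f :: V2))

/-- a double standard state with two complete pairs. -/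
def DS (p : Ω → Ω) (s : St Ω) : Prop := ∃ (f e : Ω) (X Y : List Ω), s = Fm p f e X [] Y [] ∧
  (∃ b ∈ X, p b ∈ X) ∧ (∃ q ∈ Y, p q ∈ Y)

theorem DS.mir {s : St Ω} (h : DS p s) : DS p (mir s) := by
  obtain ⟨f, e, X, Y, rfl, h1, h2⟩ := h
  exact ⟨e, f, Y, X, rfl, h2, h1⟩

theorem pair_split (hinv : ∀ t, p (p t) = t) (hne : ∀ t, p t ≠ t) {X : List Ω} {b : Ω} (h1 : b ∈ X) (h2 : p b ∈ X) :
    ∃ (c : Ω) (P Q R : List Ω), X = P ++ c :: (Q ++ p c :: R) := by
  obtain ⟨P, T, rfl⟩ := List.append_of_mem h1
  rcases List.mem_append.1 h2 with h3 | h3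
  · obtain ⟨P1, P2, rfl⟩ := List.append_of_mem h3
    refine ⟨p b, P1, P2, T, ?_⟩
    rw [hinv]
    simp
  · rcases List.mem_cons.1 h3 with h4 | h4
    · exact absurd h4 (hne b)
    · obtain ⟨Q, R, rfl⟩ := List.append_of_mem h4
      exact ⟨b, P, Q, R, rfl⟩

/-- (A_h). -/
theorem AH (k : ℕ) : ∀ s : St Ω, WF p s → Irr p s → Hub p k s →
    ∃ t, DS p t ∧ RT p (k * (s.1 ++ s.2).length) s t := by
  induction k with
  | zero =>
    intro s hw hi hh
    obtain ⟨f, e, X, U2, Y, V2, rfl, hk, ⟨b, hb1, hb2⟩, ⟨q, hq1, hq2⟩⟩ := hh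
    have hU2 : U2 = [] := List.length_eq_zero_iff.1 (by omega)
    have hV2 : V2 = [] := List.length_eq_zero_iff.1 (by omega)
    subst hU2 hV2
    have hN : N p (Fm p f e X [] Y []) := by
      refine ⟨⟨b, ?_, ?_⟩, ⟨q, ?_, hq2⟩⟩
      · simp [Fm, hb1]
      · simp [Fm, hb2]
      · simp [Fm, hq1]
    refine ⟨_, ⟨f, e, X, Y, rfl, ⟨b, hb1, hb2⟩, ⟨q, hq1, ?_⟩⟩, ?_⟩
    · have hnd := hw.nd
      simp only [Fm] at hnd
      have hd := (List.nodup_append.1 hnd).2.2
      have hqV : q ∈ e :: (Y ++ p f :: []) := by simp [hq1]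
      have h1 : p q ≠ e := by
        intro h2
        have h3 : q = p e := by rw [← h2, hw.inv]
        exact hd q (by rw [h3]; simp) q hqV rfl
      have h4 : p q ≠ p f := by
        intro h2
        have h3 : q = f := by rw [← hw.inv q, h2, hw.inv]
        exact hd q (by rw [h3]; simp) q hqV rfl
      simp only [List.mem_cons, List.mem_append, List.not_mem_nil, or_false] at hq2
      (first | grind | tauto)
    · exact ⟨.refl _ _ hN, .refl _ _ hN⟩
  | succ k ih =>
    intro s hw hi hh
    obtain ⟨f, e, X, U2, Y, V2, hs, hk, ⟨b, hb1, hb2⟩, ⟨q, hq1, hq2⟩⟩ := hh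
    subst hs
    have hnd := hw.nd
    have hcl := hw.cl
    simp only [Fm] at hnd hcl
    have hd := (List.nodup_append.1 hnd).2.2
    have hndU := (List.nodup_append.1 hnd).1
    have hndV := (List.nodup_append.1 hnd).2.1
    have hN : N p (Fm p f e X U2 Y V2) := by
      refine ⟨⟨b, ?_, ?_⟩, ⟨q, ?_, hq2⟩⟩
      · simp [Fm, hb1]
      · simp [Fm, hb2]
      · simp [Fm, hq1]
    -- finish from a smaller hub
    have fin : ∀ (a : ℕ) (s' : St Ω), RT p a (Fm p f e X U2 Y V2) s' →
        a ≤ ((Fm p f e X U2 Y V2).1 ++ (Fm p f e X U2 Y V2).2).length → Hub p k s' ∨ Hub p k (mir s') →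
        ∃ t, DS p t ∧ RT p ((k + 1) * ((Fm p f e X U2 Y V2).1 ++ (Fm p f e X U2 Y V2).2).length) (Fm p f e X U2 Y V2) t := by
      intro a s' h1 h2 h3
      have hw' := hw.reach h1.1
      have hi' := hi.reach hw h1.1
      have hl := h1.1.perm.length_eq
      rcases h3 with h3 | h3
      · obtain ⟨t, ht1, ht2⟩ := ih s' hw' hi' h3
        rw [← hl] at ht2
        refine ⟨t, ht1, (h1.trans ht2).mono ?_⟩
        rw [add_mul, one_mul]
        omega
      · obtain ⟨t, ht1, ht2⟩ := ih (mir s') hw'.mir hi'.mir h3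
        have hl2 : ((mir s').1 ++ (mir s').2).length = (s'.1 ++ s'.2).length := by
          simp [NTH.mir, Nat.add_comm]
        rw [hl2, ← hl] at ht2
        have h5 := ht2.mir
        rw [mir_mir] at h5
        refine ⟨mir t, ht1.mir, (h1.trans h5).mono ?_⟩
        rw [add_mul, one_mul]
        omega
    by_cases c1 : ∃ m ∈ X, p m ∈ V2
    · -- a mixed letter of `X` with partner in `V2`
      obtain ⟨m, hm1, hm2⟩ := c1
      obtain ⟨X1, X2, rfl⟩ := List.append_of_mem hm1
      obtain ⟨Va, Vb, rfl⟩ := List.append_of_mem hm2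
      have h1 := rotRT (p := p) e (f :: X1) (m :: X2) U2 (Y ++ p f :: (Va ++ p m :: Vb)) (by
        have := hN
        simpa [Fm] using this)
      refine fin 0 _ (by simpa [Fm] using h1) (Nat.zero_le _) (Or.inl ?_)
      refine ⟨m, e, X2 ++ f :: X1, U2, Y ++ p f :: Va, Vb, ?_, ?_, ?_, ?_⟩
      · simp [Fm]
      · simp only [List.length_append, List.length_cons] at hk ⊢
        omega
      · have hbm : ∀ c ∈ X1 ++ m :: X2, p c ∈ X1 ++ m :: X2 → c ≠ m := by
          intro c hc1 hc2 hcm
          subst hcm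
          refine hd (p c) ?_ (p c) ?_ rfl
          · simp only [List.mem_cons, List.mem_append] at hc2 ⊢
            (first | grind | tauto)
          · simp
        have h2 := hbm b hb1 hb2
        have h3 := hbm (p b) hb2 (by rwa [hw.inv])
        refine ⟨b, ?_, ?_⟩
        · simp only [List.mem_cons, List.mem_append] at hb1 ⊢
          (first | grind | tauto)
        · simp only [List.mem_cons, List.mem_append] at hb2 ⊢
          (first | grind | tauto)
      · refine ⟨q, List.mem_append_left _ hq1, ?_⟩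
        simpa using hq2
    by_cases c2 : ∃ m ∈ Y, p m ∈ U2
    · -- a mixed letter of `Y` with partner in `U2`
      obtain ⟨m, hm1, hm2⟩ := c2
      obtain ⟨Y1, Y2, rfl⟩ := List.append_of_mem hm1
      obtain ⟨Ua, Ub, rfl⟩ := List.append_of_mem hm2
      have h1 := (rotRT (p := p) f (e :: Y1) (m :: Y2) V2 (X ++ p e :: (Ua ++ p m :: Ub)) (by
        have := hN.mir
        simpa [Fm, NTH.mir] using this)).mir
      refine fin 0 _ (by simpa [Fm, NTH.mir] using h1) (Nat.zero_le _) (Or.inl ?_)
      refine ⟨f, m, X ++ p e :: Ua, Ub, Y2 ++ e :: Y1, V2, ?_, ?_, ?_, ?_⟩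
      · simp [Fm]
      · simp only [List.length_append, List.length_cons] at hk ⊢
        omega
      · exact ⟨b, List.mem_append_left _ hb1, List.mem_append_left _ hb2⟩
      · have hqm : q ≠ m := by
          intro hcm
          subst hcm
          refine hd (p q) ?_ (p q) hq2 rfl
          simp
        refine ⟨q, ?_, ?_⟩
        · simp only [List.mem_cons, List.mem_append] at hq1 ⊢
          (first | grind | tauto)
        · simp only [List.mem_cons, List.mem_append] at hq2 ⊢
          (first | grind | tauto)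
    by_cases c3 : ∃ m ∈ Y, p m ∈ V2
    · -- the local exchange
      obtain ⟨m, hm1, hm2⟩ := c3
      obtain ⟨S, G, rfl⟩ := List.append_of_mem hm1
      obtain ⟨Va, Vb, rfl⟩ := List.append_of_mem hm2
      obtain ⟨c, P, Q, R, rfl⟩ := pair_split hw.inv hw.ne hb1 hb2
      have h1 := theta0 (p := p) hw.inv f e c m P Q R S G U2 Va Vb
      refine fin _ _ h1 ?_ (Or.inl ?_)
      · simp [Fm]
        omega
      · refine ⟨m, e, G ++ p c :: (R ++ c :: Q), U2, S ++ p f :: (Va ++ f :: P), Vb, rfl, ?_, ?_, ?_⟩
        · simp only [List.length_append, List.length_cons] at hk ⊢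
          omega
        · exact ⟨c, by simp, by simp⟩
        · exact ⟨f, by simp, by simp⟩
    -- the second pair is in `Y`
    have hqV : q ∈ e :: (Y ++ p f :: V2) := by simp [hq1]
    have hqY : p q ∈ Y := by
      have h1 : p q ≠ e := by
        intro h2
        have h3 : q = p e := by rw [← h2, hw.inv]
        exact hd q (by rw [h3]; simp) q hqV rfl
      have h4 : p q ≠ p f := by
        intro h2
        have h3 : q = f := by rw [← hw.inv q, h2, hw.inv]
        exact hd q (by rw [h3]; simp) q hqV rfl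
      have h5 : p q ∉ V2 := fun h => c3 ⟨q, hq1, h⟩
      simp only [List.mem_cons, List.mem_append] at hq2
      (first | grind | tauto)
    by_cases c4 : ∃ m ∈ X, p m ∈ U2
    · -- the mirrored local exchange
      obtain ⟨m, hm1, hm2⟩ := c4
      obtain ⟨S, G, rfl⟩ := List.append_of_mem hm1
      obtain ⟨Va, Vb, rfl⟩ := List.append_of_mem hm2
      obtain ⟨c, P, Q, R, rfl⟩ := pair_split hw.inv hw.ne hq1 hqY
      have h1 := (theta0 (p := p) hw.inv e f c m P Q R S G V2 Va Vb).mir
      rw [Fm.mir] at h1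
      refine fin _ _ h1 ?_ (Or.inr ?_)
      · simp [Fm]
        omega
      · refine ⟨m, f, G ++ p c :: (R ++ c :: Q), V2, S ++ p e :: (Va ++ e :: P), Vb, rfl, ?_, ?_, ?_⟩
        · simp only [List.length_append, List.length_cons] at hk ⊢
          omega
        · exact ⟨c, by simp, by simp⟩
        · exact ⟨e, by simp, by simp⟩
    -- the static parts are closed
    have hclosed : ∀ t ∈ U2 ++ V2, p t ∈ U2 ++ V2 := by
      intro t ht
      have hself := hw.inv t
      rcases List.mem_append.1 ht with h1 | h1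
      · -- `t ∈ U2`
        have htU : t ∈ f :: (X ++ p e :: U2) := by simp [h1]
        have h2 := hcl t (List.mem_append_left _ htU)
        have a1 : p t ≠ f := by
          intro h
          exact hd t htU t (by rw [← hself, h]; simp) rfl
        have a2 : p t ∉ X := fun h => c4 ⟨p t, h, by rwa [hself]⟩
        have a3 : p t ≠ p e := by
          intro h
          have : t = e := by rw [← hself, h, hw.inv]
          exact hd t htU t (by rw [this]; simp) rfl
        have a4 : p t ≠ e := by
          intro h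
          have h3 : t = p e := by rw [← h, hself]
          have h4 : (X ++ p e :: U2).Nodup := (List.nodup_cons.1 hndU).2
          have h5 := (List.nodup_append.1 h4).2.1
          exact (List.nodup_cons.1 h5).1 (h3 ▸ h1)
        have a5 : p t ∉ Y := fun h => c2 ⟨p t, h, by rwa [hself]⟩
        have a6 : p t ≠ p f := by
          intro h
          have h3 : t = f := by rw [← hself, h, hw.inv]
          exact (List.nodup_cons.1 hndU).1 (h3 ▸ (by simp [h1]))
        simp only [List.mem_cons, List.mem_append] at h2 ⊢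
        (first | grind | tauto)
      · have htV : t ∈ e :: (Y ++ p f :: V2) := by simp [h1]
        have h2 := hcl t (List.mem_append_right _ htV)
        have a1 : p t ≠ e := by
          intro h
          have h3 : t = p e := by rw [← h, hself]
          exact hd t (by rw [h3]; simp) t htV rfl
        have a2 : p t ∉ Y := fun h => c3 ⟨p t, h, by rwa [hself]⟩
        have a3 : p t ≠ p f := by
          intro h
          have h3 : t = f := by rw [← hself, h, hw.inv]
          exact hd t (by rw [h3]; simp) t htV rfl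
        have a4 : p t ≠ f := by
          intro h
          have h3 : t = p f := by rw [← h, hself]
          have h4 : (Y ++ p f :: V2).Nodup := (List.nodup_cons.1 hndV).2
          have h5 := (List.nodup_append.1 h4).2.1
          exact (List.nodup_cons.1 h5).1 (h3 ▸ h1)
        have a5 : p t ∉ X := fun h => c1 ⟨p t, h, by rwa [hself]⟩
        have a6 : p t ≠ p e := by
          intro h
          have h3 : t = e := by rw [← hself, h, hw.inv]
          exact (List.nodup_cons.1 hndV).1 (h3 ▸ (by simp [h1]))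
        simp only [List.mem_cons, List.mem_append] at h2 ⊢
        (first | grind | tauto)
    obtain ⟨rfl, rfl⟩ := hi (f :: (X ++ [p e])) U2 (e :: (Y ++ [p f])) V2 (by simp [Fm]) (by simp) (by simp) hclosed
    exact ⟨_, ⟨f, e, X, Y, rfl, ⟨b, hb1, hb2⟩, ⟨q, hq1, hqY⟩⟩, ⟨.refl _ _ hN, .refl _ _ hN⟩⟩

/-- (A_h) with `m` = the number of tokens. -/
theorem AH' (s : St Ω) (hw : WF p s) (hi : Irr p s) (k : ℕ) (hh : Hub p k s ∨ Hub p k (mir s)) :
    ∃ t, DS p t ∧ RT p ((s.1 ++ s.2).length * (s.1 ++ s.2).length) s t := by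
  have key : ∀ (s : St Ω), WF p s → Irr p s → Hub p k s →
      ∃ t, DS p t ∧ RT p ((s.1 ++ s.2).length * (s.1 ++ s.2).length) s t := by
    intro s hw hi hh
    have h1 : Hub p (s.1 ++ s.2).length s := by
      obtain ⟨f, e, X, U2, Y, V2, rfl, -, h2, h3⟩ := hh
      exact ⟨f, e, X, U2, Y, V2, rfl, by simp [Fm]; omega, h2, h3⟩
    exact AH _ s hw hi h1
  rcases hh with hh | hh
  · exact key s hw hi hh
  · obtain ⟨t, h1, h2⟩ := key (mir s) hw.mir hi.mir hh
    have hl2 : ((mir s).1 ++ (mir s).2).length = (s.1 ++ s.2).length := by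
      simp [NTH.mir, Nat.add_comm]
    rw [hl2] at h2
    exact ⟨mir t, h1.mir, by simpa using h2.mir⟩

end NTH
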