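import Pool.Agent.helper3.NTH.AH

/-!
# MP_c8d30a: Lemma R: a state which is not pair free has a state in standard form with a complete pair in its regular class
-/

set_option autoImplicit false

namespace NTH

universe u
variable {Ω : Type u} {p : Ω → Ω}

/-- there is a prefix pair which is closed under the mixed letters and has no complete pair in one of the words. -/
def PFs (p : Ω → Ω) (s : St Ω) : Prop := ∃ RU RV U2 V2 : List Ω, s = (RU ++ U2, RV ++ V2) ∧ RU ≠ [] ∧ RV ≠ [] ∧
  (∀ t ∈ RU, p t ∉ RU) ∧ (∀ t ∈ RV, p t ∉ RV) ∧ ∀ t ∈ s.1, p t ∈ s.2 → (t ∈ RU ↔ p t ∈ RV)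

/-- `e` is in front of the second word, its partner is in the first word, behind a complete pair. -/
def EForm (p : Ω → Ω) (s : St Ω) : Prop := ∃ (e : Ω) (A U2 V2 : List Ω), s = (A ++ p e :: U2, e :: V2) ∧ ∃ b ∈ A, p b ∈ A

theorem PFs.mir {s : St Ω} (hw : WF p s) (h : PFs p s) : PFs p (mir s) := by
  obtain ⟨RU, RV, U2, V2, rfl, h1, h2, h3, h4, h5⟩ := h
  refine ⟨RV, RU, V2, U2, rfl, h2, h1, h4, h3, ?_⟩
  intro t ht1 ht2
  have := h5 (p t) ht2 (by rw [hw.inv]; exact ht1)
  rw [hw.inv] at this
  exact this.symm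

/-- regular steps: backwards. -/
theorem PFs.back {s t : St Ω} (hw : WF p s) (hs : Sp p 0 s t) (h : PFs p t) : PFs p s := by
  have key : ∀ {c : ℕ} {s t : St Ω}, WF p s → SL p c s t → c = 0 → PFs p t → PFs p s := by
    intro c s t hw hs hc h
    cases hs with
    | tr x y A B V => omega
    | reg x y U A B =>
      obtain ⟨RU, RV, U2, V2, e, h1, h2, h3, h4, h5⟩ := h
      obtain ⟨e1, e2⟩ := Prod.mk.inj e
      have hxR : x ∈ RU := by
        rcases RU with _ | ⟨u, RU⟩
        · exact absurd rfl h1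
        · have := (List.cons.inj e1).1
          simp [this]
      have hpx : p x ∈ RV := (h5 x (by simp) (by simp)).1 hxR
      -- `p x` is not in `V2`
      have hnd : (A ++ y :: p x :: B).Nodup := by
        have := (hw.of_perm (Sp.perm (p := p) (Or.inl (SL.reg x y U A B)))).nd
        exact (List.nodup_append.1 this).2.1
      have hpx2 : p x ∉ V2 := by
        rw [e2] at hnd
        intro h6
        exact (List.nodup_append.1 hnd).2.2 _ hpx _ h6 rfl
      have e3 : (A ++ [y]) ++ p x :: B = RV ++ V2 := by simpa using e2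
      obtain ⟨C, hC⟩ := suffix_aux e3 hpx2
      have hRV : RV = A ++ y :: p x :: C := by
        have h6 : (A ++ y :: p x :: C) ++ V2 = RV ++ V2 := by
          rw [← e2, hC]
          simp
        exact (List.append_cancel_right h6).symm
      subst hRV
      have hmem : ∀ z, z ∈ y :: (A ++ p x :: C) ↔ z ∈ A ++ y :: p x :: C := by
        intro z
        simp only [List.mem_cons, List.mem_append]
        (first | grind | tauto)
      refine ⟨RU, y :: (A ++ p x :: C), U2, V2, ?_, h1, by simp, h3, ?_, ?_⟩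
      · rw [← e1, hC]
        simp
      · intro z hz
        rw [hmem] at hz ⊢
        exact h4 z hz
      · intro z hz1 hz2
        rw [hmem]
        refine h5 z hz1 ?_
        simp only [List.mem_cons, List.mem_append] at hz2 ⊢
        (first | grind | tauto)
  rcases hs with hs | hs
  · exact key hw hs rfl h
  · have hw' : WF p t := hw.of_perm (Sp.perm (Or.inr hs))
    have := key hw.mir hs rfl (h.mir hw')
    simpa using this.mir hw.mir

theorem PFs.reach {a : ℕ} {s t : St Ω} (hw : WF p s) (hr : Reach p a s t) (ha : a = 0) (h : PFs p t) : PFs p s := by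
  induction hr with
  | refl _ _ _ => exact h
  | @head a c s t v hs h1 h2 ih =>
    obtain rfl : c = 0 := by omega
    exact PFs.back hw h1 (ih (hw.of_perm h1.perm) (by omega) h)

/-- the last step. -/
theorem LR_fin {f e : Ω} {X U2 Y V2 : List Ω} (hw : WF p (Fm p f e X U2 Y V2))
    (hpf : ¬ PFs p (Fm p f e X U2 Y V2)) (c1 : ∀ m ∈ X, p m ∉ V2) (c2 : ∀ m ∈ Y, p m ∉ U2) :
    EForm p (Fm p f e X U2 Y V2) ∨ EForm p (mir (Fm p f e X U2 Y V2)) := by
  by_contra hcon
  push Not at hcon
  obtain ⟨hc1, hc2⟩ := hcon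
  apply hpf
  have hnd := hw.nd
  simp only [Fm] at hnd
  have hd := (List.nodup_append.1 hnd).2.2
  have hinv := hw.inv
  -- membership
  have hXU : ∀ z ∈ X, z ∈ f :: (X ++ p e :: U2) := fun z hz => by simp [hz]
  have hYV : ∀ z ∈ Y, z ∈ e :: (Y ++ p f :: V2) := fun z hz => by simp [hz]
  refine ⟨f :: (X ++ [p e]), e :: (Y ++ [p f]), U2, V2, by simp [Fm], by simp, by simp, ?_, ?_, ?_⟩
  · intro t h1 h2
    have h3 : ∀ z ∈ f :: (X ++ [p e]), z ∈ f :: (X ++ p e :: U2) := by
      intro z hz
      simp only [List.mem_cons, List.mem_append, List.not_mem_nil, or_false] at hz ⊢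
      (first | grind | tauto)
    have htU := h3 t h1
    have hpU := h3 _ h2
    have a1 : t ≠ f := fun h => hd (p t) hpU (p t) (by rw [h]; simp) rfl
    have a2 : t ≠ p e := fun h => hd (p t) hpU (p t) (by rw [h, hinv]; simp) rfl
    have a3 : p t ≠ f := fun h => hd t htU t (by rw [← hinv t, h]; simp) rfl
    have a4 : p t ≠ p e := fun h => hd t htU t (by rw [← hinv t, h, hinv]; simp) rfl
    simp only [List.mem_cons, List.mem_append, List.not_mem_nil, or_false] at h1 h2
    refine hc1 ⟨e, f :: X, U2, Y ++ p f :: V2, rfl, t, ?_, ?_⟩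
    · simp only [List.mem_cons]
      (first | grind | tauto)
    · simp only [List.mem_cons]
      (first | grind | tauto)
  · intro t h1 h2
    have h3 : ∀ z ∈ e :: (Y ++ [p f]), z ∈ e :: (Y ++ p f :: V2) := by
      intro z hz
      simp only [List.mem_cons, List.mem_append, List.not_mem_nil, or_false] at hz ⊢
      (first | grind | tauto)
    have htV := h3 t h1
    have hpV := h3 _ h2
    have a1 : t ≠ e := fun h => hd (p t) (by rw [h]; simp) (p t) hpV rfl
    have a2 : t ≠ p f := fun h => hd (p t) (by rw [h, hinv]; simp) (p t) hpV rfl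
    have a3 : p t ≠ e := fun h => hd t (by rw [← hinv t, h]; simp) t htV rfl
    have a4 : p t ≠ p f := fun h => hd t (by rw [← hinv t, h, hinv]; simp) t htV rfl
    simp only [List.mem_cons, List.mem_append, List.not_mem_nil, or_false] at h1 h2
    refine hc2 ⟨f, e :: Y, V2, X ++ p e :: U2, rfl, t, ?_, ?_⟩
    · simp only [List.mem_cons]
      (first | grind | tauto)
    · simp only [List.mem_cons]
      (first | grind | tauto)
  · intro t h1 h2
    simp only [Fm] at h1 h2
    simp only [List.mem_cons, List.mem_append, List.not_mem_nil, or_false] at h1 h2 ⊢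
    constructor
    · rintro (h | h | h)
      · subst h
        (first | grind | tauto)
      · have := c1 t h
        (first | grind | tauto)
      · rw [h, hinv]
        (first | grind | tauto)
    · rintro (h | h | h)
      · right; right
        rw [← h, hinv]
      · have h5 := c2 (p t) h
        rw [hinv] at h5
        (first | grind | tauto)
      · left
        rw [← hinv t, h, hinv]

/-- from the double form. -/
theorem LR_dbl (n : ℕ) : ∀ (f e : Ω) (X U2 Y V2 : List Ω), U2.length + V2.length ≤ n → WF p (Fm p f e X U2 Y V2) →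
    N p (Fm p f e X U2 Y V2) → ¬ PFs p (Fm p f e X U2 Y V2) →
    ∃ t, RT p 0 (Fm p f e X U2 Y V2) t ∧ (EForm p t ∨ EForm p (mir t)) := by
  induction n with
  | zero =>
    intro f e X U2 Y V2 hk hw hN hpf
    have hU2 : U2 = [] := List.length_eq_zero_iff.1 (by omega)
    have hV2 : V2 = [] := List.length_eq_zero_iff.1 (by omega)
    subst hU2 hV2
    exact ⟨_, ⟨.refl _ _ hN, .refl _ _ hN⟩, LR_fin hw hpf (by simp) (by simp)⟩
  | succ n ih =>
    intro f e X U2 Y V2 hk hw hN hpf
    by_cases c1 : ∃ m ∈ X, p m ∈ V2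
    · obtain ⟨m, hm1, hm2⟩ := c1
      obtain ⟨X1, X2, rfl⟩ := List.append_of_mem hm1
      obtain ⟨Va, Vb, rfl⟩ := List.append_of_mem hm2
      have h1 := rotRT (p := p) e (f :: X1) (m :: X2) U2 (Y ++ p f :: (Va ++ p m :: Vb)) (by
        have := hN
        simpa [Fm] using this)
      have h2 : RT p 0 (Fm p f e (X1 ++ m :: X2) U2 Y (Va ++ p m :: Vb))
          (Fm p m e (X2 ++ f :: X1) U2 (Y ++ p f :: Va) Vb) := by
        simpa [Fm] using h1
      obtain ⟨t, ht1, ht2⟩ := ih m e (X2 ++ f :: X1) U2 (Y ++ p f :: Va) Vb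
        (by simp only [List.length_append, List.length_cons] at hk ⊢; omega) (hw.reach h2.1) h2.1.right
        (fun h => hpf (PFs.reach hw h2.1 rfl h))
      exact ⟨t, (h2.trans ht1).mono (by omega), ht2⟩
    by_cases c2 : ∃ m ∈ Y, p m ∈ U2
    · obtain ⟨m, hm1, hm2⟩ := c2
      obtain ⟨Y1, Y2, rfl⟩ := List.append_of_mem hm1
      obtain ⟨Ua, Ub, rfl⟩ := List.append_of_mem hm2
      have h1 := (rotRT (p := p) f (e :: Y1) (m :: Y2) V2 (X ++ p e :: (Ua ++ p m :: Ub)) (by
        have := hN.mir
        simpa [Fm, NTH.mir] using this)).mir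
      have h2 : RT p 0 (Fm p f e X (Ua ++ p m :: Ub) (Y1 ++ m :: Y2) V2)
          (Fm p f m (X ++ p e :: Ua) Ub (Y2 ++ e :: Y1) V2) := by
        simpa [Fm, NTH.mir] using h1
      obtain ⟨t, ht1, ht2⟩ := ih f m (X ++ p e :: Ua) Ub (Y2 ++ e :: Y1) V2
        (by simp only [List.length_append, List.length_cons] at hk ⊢; omega) (hw.reach h2.1) h2.1.right
        (fun h => hpf (PFs.reach hw h2.1 rfl h))
      exact ⟨t, (h2.trans ht1).mono (by omega), ht2⟩
    refine ⟨_, ⟨.refl _ _ hN, .refl _ _ hN⟩, LR_fin hw hpf (fun m hm h => c1 ⟨m, hm, h⟩) (fun m hm h => c2 ⟨m, hm, h⟩)⟩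

/-- the second front is mixed. -/
theorem LR_one (e : Ω) (A U2 V2 : List Ω) (hw : WF p (A ++ p e :: U2, e :: V2)) (hN : N p (A ++ p e :: U2, e :: V2))
    (hpf : ¬ PFs p (A ++ p e :: U2, e :: V2)) :
    ∃ t, RT p 0 (A ++ p e :: U2, e :: V2) t ∧ (EForm p t ∨ EForm p (mir t)) := by
  have hinv := hw.inv
  have hnd := hw.nd
  simp only at hnd
  have hd := (List.nodup_append.1 hnd).2.2
  by_cases c : ∃ m ∈ A, p m ∈ V2
  · obtain ⟨m, hm1, hm2⟩ := c
    obtain ⟨A1, A2, rfl⟩ := List.append_of_mem hm1
    obtain ⟨Va, Vb, rfl⟩ := List.append_of_mem hm2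
    have h1 := rotRT (p := p) e A1 (m :: A2) U2 (Va ++ p m :: Vb) (by simpa using hN)
    have h2 : RT p 0 ((A1 ++ m :: A2) ++ p e :: U2, e :: (Va ++ p m :: Vb)) (Fm p m e (A2 ++ A1) U2 Va Vb) := by
      simpa [Fm] using h1
    obtain ⟨t, ht1, ht2⟩ := LR_dbl _ m e (A2 ++ A1) U2 Va Vb le_rfl (hw.reach h2.1) h2.1.right
      (fun h => hpf (PFs.reach hw h2.1 rfl h))
    exact ⟨t, (h2.trans ht1).mono (by omega), ht2⟩
  · refine ⟨_, ⟨.refl _ _ hN, .refl _ _ hN⟩, Or.inl ?_⟩
    by_contra hcon
    apply hpf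
    refine ⟨A ++ [p e], [e], U2, V2, by simp, by simp, by simp, ?_, ?_, ?_⟩
    · intro t h1 h2
      have h3 : ∀ z ∈ A ++ [p e], z ∈ A ++ p e :: U2 := by
        intro z hz
        simp only [List.mem_cons, List.mem_append, List.not_mem_nil, or_false] at hz ⊢
        (first | grind | tauto)
      have htU := h3 t h1
      have hpU := h3 _ h2
      have a2 : t ≠ p e := fun h => hd (p t) hpU (p t) (by rw [h, hinv]; simp) rfl
      have a4 : p t ≠ p e := fun h => hd t htU t (by rw [← hinv t, h, hinv]; simp) rfl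
      simp only [List.mem_cons, List.mem_append, List.not_mem_nil, or_false] at h1 h2
      exact hcon ⟨e, A, U2, V2, rfl, t, by (first | grind | tauto), by (first | grind | tauto)⟩
    · intro t h1 h2
      simp only [List.mem_cons, List.not_mem_nil, or_false] at h1 h2
      exact hw.ne t (h2.trans h1.symm)
    · intro t h1 h2
      simp only [List.mem_cons, List.mem_append, List.not_mem_nil, or_false] at h1 h2 ⊢
      constructor
      · rintro (h | h)
        · rcases h2 with h2 | h2
          · exact h2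
          · exact absurd h2 (fun h3 => c ⟨t, h, h3⟩)
        · rw [h, hinv]
      · intro h
        right
        rw [← h, hinv]

/-- Lemma R. -/
theorem LR (s : St Ω) (hw : WF p s) (hN : N p s) (hpf : ¬ PFs p s) :
    ∃ t, RT p 0 s t ∧ (EForm p t ∨ EForm p (mir t)) := by
  obtain ⟨U, V⟩ := s
  have hinv := hw.inv
  have hnd := hw.nd
  simp only at hnd
  have hd := (List.nodup_append.1 hnd).2.2
  rcases U with _ | ⟨x, U⟩
  · obtain ⟨⟨r, h1, -⟩, -⟩ := hN
    simp at h1
  rcases V with _ | ⟨y, V⟩
  · obtain ⟨-, ⟨r, h1, -⟩⟩ := hN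
    simp at h1
  by_cases c1 : p y ∈ x :: U
  · obtain ⟨A, U2, hA⟩ := List.append_of_mem c1
    rw [hA] at hw hN hpf ⊢
    exact LR_one y A U2 V hw hN hpf
  by_cases c2 : p x ∈ y :: V
  · obtain ⟨A, V2, hA⟩ := List.append_of_mem c2
    rw [hA] at hw hN hpf ⊢
    obtain ⟨t, ht1, ht2⟩ := LR_one x A V2 U hw.mir hN.mir (fun h => hpf (by
      have := h.mir hw.mir
      simpa using this))
    exact ⟨mir t, by simpa using ht1.mir, by simpa [or_comm] using ht2⟩
  · exfalso
    apply hpf
    refine ⟨[x], [y], U, V, rfl, by simp, by simp, ?_, ?_, ?_⟩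
    · intro t h1 h2
      simp only [List.mem_cons, List.not_mem_nil, or_false] at h1 h2
      exact hw.ne t (h2.trans h1.symm)
    · intro t h1 h2
      simp only [List.mem_cons, List.not_mem_nil, or_false] at h1 h2
      exact hw.ne t (h2.trans h1.symm)
    · intro t h1 h2
      simp only [List.mem_cons, List.not_mem_nil, or_false]
      constructor
      · intro h
        subst h
        exact absurd h2 c2
      · intro h
        rw [← h, hinv] at c1
        exact absurd h1 c1

end NTH
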