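import Mathlib

/-!
# MP_c8d30a: token states, steps, paths (plain list forms)
-/

set_option autoImplicit false

namespace NTH

universe u
variable {Ω : Type u}

/-- a state: the two words of tokens. -/
abbrev St (Ω : Type u) := List Ω × List Ω

/-- the mirror image. -/
def mir (s : St Ω) : St Ω := (s.2, s.1)

@[simp] theorem mir_mir (s : St Ω) : mir (mir s) = s := rfl
@[simp] theorem mir_mk (U V : List Ω) : mir (U, V) = (V, U) := rfl

/-- there is a red pair and a blue pair. -/
def N (p : Ω → Ω) (s : St Ω) : Prop := (∃ r ∈ s.1, p r ∈ s.1) ∧ (∃ b ∈ s.2, p b ∈ s.2)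

/-- one step in which the front of the first word wins; the number is the cost. -/
inductive SL (p : Ω → Ω) : ℕ → St Ω → St Ω → Prop
  | reg (x y : Ω) (U A B : List Ω) : SL p 0 (x :: U, y :: (A ++ p x :: B)) (x :: U, A ++ y :: p x :: B)
  | tr (x y : Ω) (A B V : List Ω) : SL p 1 (x :: (A ++ p x :: B), y :: V) (x :: (A ++ y :: p x :: B), V)

/-- one step. -/
def Sp (p : Ω → Ω) (c : ℕ) (s t : St Ω) : Prop := SL p c s t ∨ SL p c (mir s) (mir t)

/-- a path with all states in `N` and cost at most `a`. -/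
inductive Reach (p : Ω → Ω) : ℕ → St Ω → St Ω → Prop
  | refl (a : ℕ) (s : St Ω) (h : N p s) : Reach p a s s
  | head {a c : ℕ} {s t v : St Ω} (hs : N p s) (h : Sp p c s t) (ht : Reach p a t v) : Reach p (c + a) s v

variable {p : Ω → Ω}

theorem N.mir {s : St Ω} (h : N p s) : N p (mir s) := ⟨h.2, h.1⟩

theorem Sp.mir {c : ℕ} {s t : St Ω} (h : Sp p c s t) : Sp p c (mir s) (mir t) := by
  rcases h with h | h
  · exact Or.inr (by simpa using h)
  · exact Or.inl h

theorem Reach.mir {a : ℕ} {s t : St Ω} (h : Reach p a s t) : Reach p a (mir s) (mir t) := by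
  induction h with
  | refl a s h => exact .refl _ _ h.mir
  | head hs h _ ih => exact .head hs.mir h.mir ih

theorem Reach.left {a : ℕ} {s t : St Ω} (h : Reach p a s t) : N p s := by
  cases h with
  | refl _ _ h => exact h
  | head hs _ _ => exact hs

theorem Reach.right {a : ℕ} {s t : St Ω} (h : Reach p a s t) : N p t := by
  induction h with
  | refl _ _ h => exact h
  | head _ _ _ ih => exact ih

theorem Reach.mono {a b : ℕ} {s t : St Ω} (h : Reach p a s t) (hab : a ≤ b) : Reach p b s t := by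
  induction h generalizing b with
  | refl _ _ h => exact .refl _ _ h
  | @head a c s t v hs h _ ih =>
    obtain ⟨d, rfl⟩ := Nat.exists_eq_add_of_le hab
    rw [add_assoc]
    exact .head hs h (ih (by omega))

theorem Reach.trans {a b : ℕ} {s t v : St Ω} (h : Reach p a s t) (h' : Reach p b t v) :
    Reach p (a + b) s v := by
  induction h with
  | refl _ _ _ => exact h'.mono (by omega)
  | head hs h _ ih =>
    rw [add_assoc]
    exact .head hs h (ih h')

/-- `N` depends only on the members. -/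
theorem N.congr {U V U' V' : List Ω} (h : N p (U, V)) (hU : ∀ x, x ∈ U ↔ x ∈ U')
    (hV : ∀ x, x ∈ V ↔ x ∈ V') : N p (U', V') := by
  obtain ⟨⟨r, h1, h2⟩, ⟨b, h3, h4⟩⟩ := h
  exact ⟨⟨r, (hU _).1 h1, (hU _).1 h2⟩, ⟨b, (hV _).1 h3, (hV _).1 h4⟩⟩

/-- rotation: `e` at the front of the second word moves the block `S` of the first word. -/
theorem rotR (e : Ω) (S A B V : List Ω) (h : N p (S ++ (A ++ p e :: B), e :: V)) :
    Reach p 0 (S ++ (A ++ p e :: B), e :: V) (A ++ (S ++ p e :: B), e :: V) := by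
  induction S generalizing A with
  | nil => exact .refl _ _ (by simpa using h)
  | cons s S ih =>
    have h1 : Sp p 0 (s :: (S ++ A ++ p e :: B), e :: V) (S ++ A ++ s :: p e :: B, e :: V) := by
      right
      exact SL.reg e s V (S ++ A) B
    have h2 : N p (S ++ ((A ++ [s]) ++ p e :: B), e :: V) := by
      refine h.congr ?_ (fun _ => Iff.rfl)
      intro x
      simp only [List.cons_append, List.mem_cons, List.mem_append]
      tauto
    have h3 := ih (A ++ [s]) h2
    have h4 : Reach p (0 + 0) (s :: (S ++ A ++ p e :: B), e :: V) ((A ++ [s]) ++ (S ++ p e :: B), e :: V) := by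
      refine .head ?_ h1 ?_
      · simpa using h
      · simpa using h3
    simpa using h4

/-- rotation, mirrored. -/
theorem rotL (e : Ω) (S A B U : List Ω) (h : N p (e :: U, S ++ (A ++ p e :: B))) :
    Reach p 0 (e :: U, S ++ (A ++ p e :: B)) (e :: U, A ++ (S ++ p e :: B)) :=
  (rotR e S A B U h.mir).mir

/-- a run: the red token `x` at the front of the first word takes the block `S` of the second word. -/
theorem runL (x : Ω) (A B S V : List Ω) (h : ∃ q ∈ V, p q ∈ V) :
    Reach p S.length (x :: (A ++ p x :: B), S ++ V) (x :: (A ++ (S ++ p x :: B)), V) := by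
  have hr : ∀ A : List Ω, ∃ r ∈ x :: (A ++ p x :: B), p r ∈ x :: (A ++ p x :: B) := fun A =>
    ⟨x, by simp, by simp⟩
  have hb : ∀ S : List Ω, ∃ q ∈ S ++ V, p q ∈ S ++ V := fun S => by
    obtain ⟨q, h1, h2⟩ := h
    exact ⟨q, List.mem_append_right _ h1, List.mem_append_right _ h2⟩
  induction S generalizing A with
  | nil => exact .refl _ _ ⟨hr A, hb []⟩
  | cons s S ih =>
    have h1 : Sp p 1 (x :: (A ++ p x :: B), s :: (S ++ V)) (x :: (A ++ s :: p x :: B), S ++ V) :=
      Or.inl (SL.tr x s A B (S ++ V))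
    have h3 := ih (A ++ [s])
    have h4 : Reach p (1 + S.length) (x :: (A ++ p x :: B), s :: (S ++ V))
        (x :: ((A ++ [s]) ++ (S ++ p x :: B)), V) := by
      refine .head ⟨hr A, hb (s :: S)⟩ h1 ?_
      simpa using h3
    rw [List.length_cons, add_comm]
    simpa using h4

/-- a run, mirrored. -/
theorem runR (x : Ω) (A B S U : List Ω) (h : ∃ q ∈ U, p q ∈ U) :
    Reach p S.length (S ++ U, x :: (A ++ p x :: B)) (U, x :: (A ++ (S ++ p x :: B))) :=
  (runL x A B S U h).mir

/-- no closed pair of proper suffixes. -/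
def Irr (p : Ω → Ω) (s : St Ω) : Prop := ∀ U1 U2 V1 V2 : List Ω, s = (U1 ++ U2, V1 ++ V2) → U1 ≠ [] → V1 ≠ [] →
  (∀ t ∈ U2 ++ V2, p t ∈ U2 ++ V2) → U2 = [] ∧ V2 = []

/-- all tokens once, partners are there. -/
structure WF (p : Ω → Ω) (s : St Ω) : Prop where
  nd : (s.1 ++ s.2).Nodup
  cl : ∀ t ∈ s.1 ++ s.2, p t ∈ s.1 ++ s.2
  inv : ∀ t, p (p t) = t
  ne : ∀ t, p t ≠ t

theorem WF.mir {s : St Ω} (h : WF p s) : WF p (mir s) := by
  refine ⟨?_, ?_, h.inv, h.ne⟩
  · have := h.nd
    exact (List.perm_append_comm.nodup_iff).1 this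
  · intro t ht
    have h1 : t ∈ s.1 ++ s.2 := by
      simp only [NTH.mir, List.mem_append] at ht ⊢
      tauto
    have := h.cl t h1
    simp only [NTH.mir, List.mem_append] at this ⊢
    tauto

theorem Irr.mir {s : St Ω} (h : Irr p s) : Irr p (mir s) := by
  intro U1 U2 V1 V2 hs h1 h2 hc
  have h3 : s = (V1 ++ V2, U1 ++ U2) := by
    have := congrArg NTH.mir hs
    simpa using this
  have := h V1 V2 U1 U2 h3 h2 h1 (by
    intro t ht
    have h4 : t ∈ U2 ++ V2 := by
      simp only [List.mem_append] at ht ⊢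
      tauto
    have := hc t h4
    simp only [List.mem_append] at this ⊢
    tauto)
  exact ⟨this.2, this.1⟩

end NTH
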