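import Pool.Agent.helper3.NTH.Base

/-!
# MP_c8d30a: (A_h): a hub state has a cheap reversible path to a double standard state
-/

set_option autoImplicit false

namespace NTH

universe u
variable {Ω : Type u} {p : Ω → Ω}

theorem Sp.perm {c : ℕ} {s t : St Ω} (h : Sp p c s t) : (s.1 ++ s.2).Perm (t.1 ++ t.2) := by
  have key : ∀ {s t : St Ω}, SL p c s t → (s.1 ++ s.2).Perm (t.1 ++ t.2) := by
    intro s t h
    cases h with
    | reg x y U A B =>
      simp only
      refine List.Perm.append_left _ ?_
      exact (List.perm_middle (l₁ := A) (l₂ := p x :: B) (a := y)).symm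
    | tr x y A B V =>
      simp only [List.cons_append]
      refine List.Perm.cons _ ?_
      have h1 : ((A ++ p x :: B) ++ y :: V).Perm (y :: ((A ++ p x :: B) ++ V)) := List.perm_middle
      have h2 : (y :: ((A ++ p x :: B) ++ V)).Perm ((A ++ y :: p x :: B) ++ V) := by
        simpa using (List.perm_middle (l₁ := A) (l₂ := p x :: (B ++ V)) (a := y)).symm
      exact h1.trans h2
  rcases h with h | h
  · exact key h
  · have := key h
    exact List.perm_append_comm.trans (this.trans List.perm_append_comm)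

theorem Reach.perm {a : ℕ} {s t : St Ω} (h : Reach p a s t) : (s.1 ++ s.2).Perm (t.1 ++ t.2) := by
  induction h with
  | refl _ _ _ => exact List.Perm.refl _
  | head _ h _ ih => exact h.perm.trans ih

theorem WF.of_perm {s t : St Ω} (h : WF p s) (hp : (s.1 ++ s.2).Perm (t.1 ++ t.2)) : WF p t :=
  ⟨hp.nodup_iff.1 h.nd, fun x hx => hp.mem_iff.1 (h.cl x (hp.mem_iff.2 hx)), h.inv, h.ne⟩

theorem WF.reach {a : ℕ} {s t : St Ω} (h : WF p s) (hr : Reach p a s t) : WF p t := h.of_perm hr.perm

/-- a suffix which does not contain the last but one part. -/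
theorem suffix_aux {α : Type u} {A B V1 V2 : List α} {x : α} (h : A ++ x :: B = V1 ++ V2) (hx : x ∉ V2) :
    ∃ C, B = C ++ V2 := by
  have h1 : V2 <:+ A ++ x :: B := ⟨V1, h.symm⟩
  have h2 : x :: B <:+ A ++ x :: B := ⟨A, rfl⟩
  rcases List.suffix_or_suffix_of_suffix h1 h2 with h3 | h3
  · rcases List.suffix_cons_iff.1 h3 with h4 | h4
    · exact absurd (h4 ▸ List.mem_cons_self) hx
    · obtain ⟨C, hC⟩ := h4
      exact ⟨C, hC.symm⟩
  · exact absurd (h3.subset List.mem_cons_self) hx

theorem Irr.step {c : ℕ} {s t : St Ω} (hw : WF p s) (h : Irr p s) (hs : Sp p c s t) : Irr p t := by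
  have key : ∀ {s t : St Ω}, WF p s → Irr p s → SL p c s t → Irr p t := by
    intro s t hw h hs
    have hnd := hw.nd
    cases hs with
    | reg x y U A B =>
      intro U1 U2 V1 V2 e h1 h2 hc
      obtain ⟨e1, e2⟩ := Prod.mk.inj e
      simp only at hnd
      have hxU : x ∉ U ∧ x ∉ y :: (A ++ p x :: B) := by
        have h3 := List.nodup_cons.1 hnd
        constructor <;> intro h4 <;> exact h3.1 (List.mem_append.2 (by tauto))
      have hx2 : x ∉ U2 := by
        intro h3
        rcases U1 with _ | ⟨u, U1⟩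
        · exact h1 rfl
        · have h4 : U = U1 ++ U2 := by simpa using (List.cons.inj e1).2
          exact hxU.1 (h4 ▸ List.mem_append_right _ h3)
      have hV2 : ∀ z ∈ V2, z ∈ A ++ y :: p x :: B := fun z hz => e2 ▸ List.mem_append_right _ hz
      have hx3 : x ∉ V2 := by
        intro h3
        have := hV2 x h3
        apply hxU.2
        simp only [List.mem_append, List.mem_cons] at this ⊢
        tauto
      have hpx : p x ∉ V2 := by
        intro h3
        have := hc (p x) (List.mem_append_right _ h3)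
        rw [hw.inv, List.mem_append] at this
        exact this.elim hx2 hx3
      have e3 : (A ++ [y]) ++ p x :: B = V1 ++ V2 := by simpa using e2
      obtain ⟨C, hC⟩ := suffix_aux e3 hpx
      refine h U1 U2 (y :: (A ++ p x :: C)) V2 ?_ h1 (by simp) hc
      rw [hC, e1]
      simp
    | tr x y A B V =>
      intro U1 U2 V1 V2 e h1 h2 hc
      obtain ⟨e1, e2⟩ := Prod.mk.inj e
      simp only at hnd
      have hx0 : x ∉ A ++ p x :: B ∧ x ∉ y :: V := by
        have h3 := List.nodup_cons.1 hnd
        constructor <;> intro h4 <;> exact h3.1 (List.mem_append.2 (by tauto))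
      have hx2 : x ∉ U2 := by
        intro h3
        rcases U1 with _ | ⟨u, U1⟩
        · exact h1 rfl
        · have h4 : A ++ y :: p x :: B = U1 ++ U2 := by simpa using (List.cons.inj e1).2
          have h5 : x ∈ A ++ y :: p x :: B := h4 ▸ List.mem_append_right _ h3
          have h6 := hx0.1
          have h7 : x ≠ y := fun h8 => hx0.2 (h8 ▸ List.mem_cons_self)
          simp only [List.mem_append, List.mem_cons] at h5 h6
          tauto
      have hx3 : x ∉ V2 := by
        intro h3
        apply hx0.2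
        rw [e2]
        exact List.mem_cons_of_mem _ (List.mem_append_right _ h3)
      have hpx : p x ∉ U2 := by
        intro h3
        have := hc (p x) (List.mem_append_left _ h3)
        rw [hw.inv, List.mem_append] at this
        exact this.elim hx2 hx3
      have e3 : (x :: (A ++ [y])) ++ p x :: B = U1 ++ U2 := by simpa using e1
      obtain ⟨C, hC⟩ := suffix_aux e3 hpx
      refine h (x :: (A ++ p x :: C)) U2 (y :: V1) V2 ?_ (by simp) (by simp) hc
      rw [hC, e2]
      simp
  rcases hs with hs | hs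
  · exact key hw h hs
  · have := key hw.mir h.mir hs
    simpa using this.mir

theorem Irr.reach {a : ℕ} {s t : St Ω} (hw : WF p s) (h : Irr p s) (hr : Reach p a s t) : Irr p t := by
  induction hr with
  | refl _ _ _ => exact h
  | head _ h1 _ ih => exact ih (hw.of_perm h1.perm) (h.step hw h1)

/-- `s` and `t` are joined by paths of cost at most `a` in both directions. -/
def RT (p : Ω → Ω) (a : ℕ) (s t : St Ω) : Prop := Reach p a s t ∧ Reach p a t s

theorem RT.trans {a b : ℕ} {s t v : St Ω} (h : RT p a s t) (h' : RT p b t v) : RT p (a + b) s v :=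
  ⟨h.1.trans h'.1, (h'.2.trans h.2).mono (by omega)⟩

theorem RT.symm {a : ℕ} {s t : St Ω} (h : RT p a s t) : RT p a t s := ⟨h.2, h.1⟩

theorem RT.mono {a b : ℕ} {s t : St Ω} (h : RT p a s t) (hab : a ≤ b) : RT p b s t :=
  ⟨h.1.mono hab, h.2.mono hab⟩

theorem RT.mir {a : ℕ} {s t : St Ω} (h : RT p a s t) : RT p a (mir s) (mir t) := ⟨h.1.mir, h.2.mir⟩

/-- rotations are reversible. -/
theorem rotRT (e : Ω) (S A B V : List Ω) (h : N p (S ++ (A ++ p e :: B), e :: V)) :
    RT p 0 (S ++ (A ++ p e :: B), e :: V) (A ++ (S ++ p e :: B), e :: V) :=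
  ⟨rotR e S A B V h, rotR e A S B V (rotR e S A B V h).right⟩

/-- the standard form: `e` in front of the second word, `f` in front of the first word. -/
def Fm (p : Ω → Ω) (f e : Ω) (X U2 Y V2 : List Ω) : St Ω := (f :: (X ++ p e :: U2), e :: (Y ++ p f :: V2))

theorem Fm.mir (f e : Ω) (X U2 Y V2 : List Ω) : mir (Fm p f e X U2 Y V2) = Fm p e f Y V2 X U2 := rfl

/-- the local exchange. -/
theorem theta0 (hinv : ∀ t, p (p t) = t) (f e b q : Ω) (P Q R S G U2 Va Vb : List Ω) :
    RT p ((f :: P).length + (q :: G).length)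
      (Fm p f e (P ++ b :: (Q ++ p b :: R)) U2 (S ++ q :: G) (Va ++ p q :: Vb))
      (Fm p q e (G ++ p b :: (R ++ b :: Q)) U2 (S ++ p f :: (Va ++ f :: P)) Vb) := by
  constructor
  · -- forward
    have hN : N p (f :: ((P ++ b :: (Q ++ p b :: R)) ++ p e :: U2), (e :: S) ++ ((q :: G) ++ p f :: (Va ++ p q :: Vb))) :=
      ⟨⟨b, by simp, by simp⟩, ⟨q, by simp, by simp⟩⟩
    have h1 := rotL f (e :: S) (q :: G) (Va ++ p q :: Vb) ((P ++ b :: (Q ++ p b :: R)) ++ p e :: U2) hN
    have h2 := runR (p := p) q (G ++ (e :: S) ++ p f :: Va) Vb (f :: P) (b :: (Q ++ p b :: (R ++ p e :: U2)))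
      ⟨b, by simp, by simp⟩
    have h3 := runL (p := p) b Q (R ++ p e :: U2) (q :: G) (e :: (S ++ p f :: (Va ++ ((f :: P) ++ p q :: Vb))))
      ⟨f, by simp, by simp⟩
    have h4 := rotR (p := p) e (b :: Q) ((q :: G) ++ p b :: R) U2 (S ++ p f :: (Va ++ ((f :: P) ++ p q :: Vb)))
      ⟨⟨b, by simp, by simp⟩, ⟨f, by simp, by simp⟩⟩
    simp only [List.append_assoc, List.cons_append] at h1 h2 h3 h4
    have h5 := ((h1.trans h2).trans h3).trans h4
    unfold Fm
    simp only [List.append_assoc, List.cons_append]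
    exact h5.mono (by simp)
  · -- back
    have h1 := rotL (p := p) q (e :: (S ++ p f :: Va)) (f :: P) Vb ((G ++ p b :: (R ++ b :: Q)) ++ p e :: U2)
      ⟨⟨b, by simp, by simp⟩, ⟨f, by simp, by simp⟩⟩
    have h2 := runR (p := p) f (P ++ e :: S) (Va ++ p q :: Vb) (q :: G) (p b :: (R ++ b :: (Q ++ p e :: U2)))
      ⟨b, by simp, by simp⟩
    have h3 := runL (p := p) (p b) R (Q ++ p e :: U2) (f :: P) (e :: (S ++ (q :: G) ++ p f :: (Va ++ p q :: Vb)))
      ⟨q, by simp, by simp⟩
    rw [hinv] at h3
    have h4 := rotR (p := p) e (p b :: R) ((f :: P) ++ b :: Q) U2 (S ++ (q :: G) ++ p f :: (Va ++ p q :: Vb))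
      ⟨⟨b, by simp, by simp⟩, ⟨q, by simp, by simp⟩⟩
    simp only [List.append_assoc, List.cons_append] at h1 h2 h3 h4
    have h5 := ((h1.trans h2).trans h3).trans h4
    unfold Fm
    simp only [List.append_assoc, List.cons_append]
    exact h5.mono (by simp; omega)

end NTH
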